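import Mathlib

/-!
# Reduction of the alternated chain product to a product of two-forms

`U L x` is the element of the exterior algebra obtained from the chain product of cocycles
`c_s(x,y,z) = s x y + s y z + s z x`.  Its total `∑ e_x U L x` is `(2n+1) η W L`, where `W L` is
the product of the two-forms `ω_s = ∑ s x y e_x e_y` and `η = ∑ e_x`.
-/

set_option autoImplicit false

namespace Q187.Orient

open scoped BigOperators

variable {M : Type*} [AddCommGroup M] {κ : Type*} [Fintype κ] (v : κ → M)

/-- generators -/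
noncomputable def E (x : κ) : ExteriorAlgebra ℤ M := ExteriorAlgebra.ι ℤ (v x)

noncomputable def eta : ExteriorAlgebra ℤ M := ∑ x, E v x

noncomputable def alpha (s : κ → κ → ℤ) (x : κ) : ExteriorAlgebra ℤ M := ∑ y, s x y • E v y

noncomputable def omega (s : κ → κ → ℤ) : ExteriorAlgebra ℤ M := ∑ x, E v x * alpha v s x

noncomputable def W : List (κ → κ → ℤ) → ExteriorAlgebra ℤ M
  | [] => 1
  | s :: L => omega v s * W L

noncomputable def U : List (κ → κ → ℤ) → κ → ExteriorAlgebra ℤ M
  | [], _ => 1
  | s :: L, x => ∑ y, ∑ z, (s x y + s y z + s z x) • (E v y * (E v z * U L z))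

/-- being a one-form -/
def One (a : ExteriorAlgebra ℤ M) : Prop := ∃ m : M, a = ExteriorAlgebra.ι ℤ m

lemma One.swap {a b : ExteriorAlgebra ℤ M} (ha : One a) (hb : One b) : a * b = -(b * a) := by
  obtain ⟨m, rfl⟩ := ha
  obtain ⟨n, rfl⟩ := hb
  exact eq_neg_of_add_eq_zero_left (ExteriorAlgebra.ι_add_mul_swap m n)

lemma One.sq {a : ExteriorAlgebra ℤ M} (ha : One a) : a * a = 0 := by
  obtain ⟨m, rfl⟩ := ha
  exact ExteriorAlgebra.ι_sq_zero m

lemma one_E (x : κ) : One (E v x) := ⟨v x, rfl⟩

lemma one_eta : One (eta v) := ⟨∑ x, v x, by unfold eta E; rw [map_sum]⟩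

lemma one_alpha (s : κ → κ → ℤ) (x : κ) : One (alpha v s x) :=
  ⟨∑ y, s x y • v y, by
    unfold alpha E
    rw [map_sum]
    refine Finset.sum_congr rfl fun y _ => ?_
    rw [map_zsmul]⟩

lemma sum_alpha_E (s : κ → κ → ℤ) : ∑ z, alpha v s z * E v z = -omega v s := by
  unfold omega
  rw [← Finset.sum_neg_distrib]
  refine Finset.sum_congr rfl fun z _ => ?_
  exact (one_alpha v s z).swap (one_E v z)

/-- The main structural lemma. -/
theorem U_struct (L : List (κ → κ → ℤ)) (hL : ∀ s ∈ L, ∀ x y, s x y = -s y x) :
    ∃ (K : ExteriorAlgebra ℤ M) (β : κ → ExteriorAlgebra ℤ M),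
      (∀ x, U v L x = W v L - eta v * β x + eta v * K) ∧
      ∑ x, E v x * β x = (2 * L.length : ℤ) • W v L ∧
      ∑ x, E v x * U v L x = (2 * L.length + 1 : ℤ) • (eta v * W v L) := by
  have tot : ∀ (L : List (κ → κ → ℤ)) (K : ExteriorAlgebra ℤ M) (β : κ → ExteriorAlgebra ℤ M),
      (∀ x, U v L x = W v L - eta v * β x + eta v * K) →
      ∑ x, E v x * β x = (2 * L.length : ℤ) • W v L →
      ∑ x, E v x * U v L x = (2 * L.length + 1 : ℤ) • (eta v * W v L) := by
    intro L K β h1 h2
    have h3 : ∀ x, E v x * U v L x = E v x * W v L + eta v * (E v x * β x) +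
        E v x * (eta v * K) := by
      intro x
      rw [h1, mul_add, mul_sub, ← mul_assoc (E v x) (eta v) (β x), (one_E v x).swap (one_eta v),
        neg_mul, sub_neg_eq_add, mul_assoc (eta v)]
    simp_rw [h3]
    rw [Finset.sum_add_distrib, Finset.sum_add_distrib, ← Finset.sum_mul, ← Finset.mul_sum,
      ← Finset.sum_mul, h2]
    change eta v * W v L + eta v * ((2 * (L.length : ℤ)) • W v L) + eta v * (eta v * K) = _
    rw [← mul_assoc (eta v) (eta v) K, (one_eta v).sq, zero_mul, add_zero, mul_smul_comm, add_smul,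
      one_smul, add_comm]
  induction L with
  | nil =>
    have h1 : ∀ x, U v ([] : List (κ → κ → ℤ)) x = W v [] - eta v * 0 + eta v * 0 := by
      intro x; simp [U, W]
    have h2 : ∑ x, E v x * (0 : ExteriorAlgebra ℤ M) =
        (2 * (([] : List (κ → κ → ℤ)).length : ℤ)) • W v [] := by simp
    exact ⟨0, fun _ => 0, h1, h2, tot _ 0 (fun _ => 0) h1 h2⟩
  | cons s L ih =>
    obtain ⟨K, β, h1, h2, h3⟩ := ih fun s' hs' => hL s' (List.mem_cons_of_mem _ hs')
    have hs := hL s List.mem_cons_self
    set ℓ : ℤ := 2 * (L.length : ℤ) with hℓ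
    -- expansion of `U (s :: L) x`
    have e1 : ∀ x, U v (s :: L) x = alpha v s x * ∑ z, E v z * U v L z -
        ∑ z, alpha v s z * (E v z * U v L z) -
        eta v * ∑ z, s x z • (E v z * U v L z) := by
      intro x
      have e2 : ∀ y z, (s x y + s y z + s z x) • (E v y * (E v z * U v L z)) =
          (s x y • E v y) * (E v z * U v L z) - (s z y • E v y) * (E v z * U v L z) -
            E v y * (s x z • (E v z * U v L z)) := by
        intro y z
        rw [hs y z, hs z x, smul_mul_assoc, smul_mul_assoc, mul_smul_comm, add_smul, add_smul,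
          neg_smul, neg_smul]
        abel
      show ∑ y, ∑ z, (s x y + s y z + s z x) • (E v y * (E v z * U v L z)) = _
      simp_rw [e2]
      simp_rw [Finset.sum_sub_distrib]
      congr 1
      · congr 1
        · simp_rw [← Finset.mul_sum]
          rw [← Finset.sum_mul]
          rfl
        · rw [Finset.sum_comm]
          refine Finset.sum_congr rfl fun z _ => ?_
          rw [← Finset.sum_mul]
          rfl
      · simp_rw [← Finset.mul_sum]
        rw [← Finset.sum_mul]
        rfl
    -- second sum
    have e3 : ∑ z, alpha v s z * (E v z * U v L z) = -(omega v s * W v L) -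
        eta v * (∑ z, alpha v s z * (E v z * β z)) - eta v * (omega v s * K) := by
      have e4 : ∀ z, alpha v s z * (E v z * U v L z) = (alpha v s z * E v z) * W v L -
          eta v * (alpha v s z * (E v z * β z)) + eta v * ((alpha v s z * E v z) * K) := by
        intro z
        have c1 : alpha v s z * (E v z * eta v) = eta v * (alpha v s z * E v z) := by
          rw [(one_E v z).swap (one_eta v), mul_neg, ← mul_assoc,
            (one_alpha v s z).swap (one_eta v), neg_mul, neg_neg, mul_assoc]
        rw [h1, mul_add, mul_add, mul_sub, mul_sub, ← mul_assoc (E v z) (eta v) (β z),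
          ← mul_assoc (E v z) (eta v) K, ← mul_assoc (alpha v s z) (E v z * eta v),
          ← mul_assoc (alpha v s z) (E v z * eta v), c1]
        simp only [mul_assoc]
      simp_rw [e4]
      rw [Finset.sum_add_distrib, Finset.sum_sub_distrib, ← Finset.sum_mul, ← Finset.mul_sum,
        ← Finset.mul_sum, ← Finset.sum_mul, sum_alpha_E]
      simp only [neg_mul, mul_neg]
      abel
    -- third sum
    have e5 : ∀ x, eta v * ∑ z, s x z • (E v z * U v L z) = eta v * (alpha v s x * W v L) := by
      intro x
      have e6 : ∀ z, eta v * (s x z • (E v z * U v L z)) =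
          eta v * ((s x z • E v z) * W v L) := by
        intro z
        have c2 : ∀ Y : ExteriorAlgebra ℤ M, eta v * (E v z * (eta v * Y)) = 0 := by
          intro Y
          rw [← mul_assoc (E v z), (one_E v z).swap (one_eta v), neg_mul, mul_neg,
            mul_assoc (eta v) (E v z) Y, ← mul_assoc (eta v) (eta v), (one_eta v).sq, zero_mul,
            neg_zero]
        rw [h1, mul_add, mul_sub, smul_add, smul_sub, mul_add, mul_sub, mul_smul_comm (s x z),
          mul_smul_comm (s x z), mul_smul_comm (s x z), c2, c2, smul_zero, add_zero, sub_zero,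
          smul_mul_assoc, mul_smul_comm (s x z)]
      rw [Finset.mul_sum]
      simp_rw [e6]
      rw [← Finset.mul_sum, ← Finset.sum_mul]
      rfl
    let β' : κ → ExteriorAlgebra ℤ M := fun x => (ℓ + 2) • (alpha v s x * W v L)
    let K' : ExteriorAlgebra ℤ M := (∑ z, alpha v s z * (E v z * β z)) + omega v s * K
    have g1 : ∀ x, U v (s :: L) x = W v (s :: L) - eta v * β' x + eta v * K' := by
      intro x
      rw [e1, h3, e3, e5]
      show _ = omega v s * W v L - eta v * ((ℓ + 2) • (alpha v s x * W v L)) +
        eta v * ((∑ z, alpha v s z * (E v z * β z)) + omega v s * K)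
      rw [mul_smul_comm, mul_smul_comm, ← mul_assoc (alpha v s x) (eta v),
        (one_alpha v s x).swap (one_eta v), neg_mul, mul_assoc (eta v) (alpha v s x), mul_add,
        smul_neg]
      have : (ℓ + 2) • (eta v * (alpha v s x * W v L)) = (ℓ + 1) • (eta v * (alpha v s x * W v L)) +
          eta v * (alpha v s x * W v L) := by
        rw [show ℓ + 2 = (ℓ + 1) + 1 by ring, add_smul (ℓ + 1), one_smul]
      rw [this]
      abel
    have g2 : ∑ x, E v x * β' x = (2 * ((s :: L).length : ℤ)) • W v (s :: L) := by
      show ∑ x, E v x * ((ℓ + 2) • (alpha v s x * W v L)) = _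
      simp_rw [mul_smul_comm]
      rw [← Finset.smul_sum]
      simp_rw [← mul_assoc]
      rw [← Finset.sum_mul]
      have : (2 * ((s :: L).length : ℤ)) = ℓ + 2 := by
        rw [hℓ, List.length_cons]; push_cast; ring
      rw [this]
      rfl
    exact ⟨K', β', g1, g2, tot _ _ _ g1 g2⟩

end Q187.Orient
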