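import Pool.Agent.Q187.Orient.Tree

set_option autoImplicit false

namespace Q187.Orient

/-- The tree computation for the multipliers `1, 2, 3, 4, 5, 6`. -/
theorem compA : T.isChain 12 (W6 ![1, 2, 3, 4, 5, 6]) 5056 = true := by decide +kernel

end Q187.Orient
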