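import Pool.Agent.Q187.Orient.Tree

set_option autoImplicit false

namespace Q187.Orient

/-- The tree computation for the multipliers `1, 1, 3, 3, 4, 4`. -/
theorem compB : T.isChain 12 (W6 ![1, 1, 3, 3, 4, 4]) (-14256) = true := by decide +kernel

end Q187.Orient
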