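import Mathlib

/-!
# Sparse trees for elements of an exterior algebra

Integer elements of an exterior algebra with generators `e_k, e_{k+1}, …` are stored as sparse
binary trees, so that products of two-forms can be evaluated by the kernel.
-/

set_option autoImplicit false

namespace Q187.Orient

/-- Sparse binary trees: `nd a b` at level `k` stands for `a + e_k b`. -/
inductive T : Type
  | z : T
  | lf : ℤ → T
  | nd : T → T → T

namespace T

noncomputable def neg : T → T := T.rec z (fun c => lf (-c)) (fun _ _ x y => nd x y)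

def mkNd : T → T → T
  | z, z => z
  | a, b => nd a b

noncomputable def add : T → T → T :=
  T.rec (fun b => b)
    (fun c b => T.rec (lf c) (fun d => lf (c + d)) (fun _ _ _ _ => z) b)
    (fun a₁ a₂ f g b => T.rec (nd a₁ a₂) (fun _ => z) (fun b₁ b₂ _ _ => nd (f b₁) (g b₂)) b)

noncomputable def sub : T → T → T :=
  T.rec (fun b => neg b)
    (fun c b => T.rec (lf c) (fun d => lf (c - d)) (fun _ _ _ _ => z) b)
    (fun a₁ a₂ f g b => T.rec (nd a₁ a₂) (fun _ => z) (fun b₁ b₂ _ _ => nd (f b₁) (g b₂)) b)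

/-- Multiplication; the `Bool` is the parity of the left factor. -/
noncomputable def mul : T → Bool → T → T :=
  T.rec (fun _ _ => z)
    (fun c _ b => T.rec z (fun d => lf (c * d)) (fun _ _ _ _ => z) b)
    (fun _ _ f g p b => T.rec z (fun _ => z) (fun b₁ b₂ _ _ =>
      mkNd (f p b₁) (Bool.rec (add (g true b₁) (f p b₂)) (sub (g false b₁) (f p b₂)) p)) b)

/-- scalar `c` with `m` further levels -/
def sc (c : ℤ) : ℕ → T
  | 0 => lf c
  | m + 1 => nd (sc c m) z

def form1 (f : ℕ → ℤ) : ℕ → ℕ → T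
  | _, 0 => z
  | k, m + 1 => nd (form1 f (k + 1) m) (sc (f k) m)

def form2 (w : ℕ → ℕ → ℤ) : ℕ → ℕ → T
  | _, 0 => z
  | k, m + 1 => nd (form2 w (k + 1) m) (form1 (w k) (k + 1) m)

def isChain : ℕ → T → ℤ → Bool
  | 0, lf c, d => decide (c = d)
  | m + 1, nd z b, d => isChain m b d
  | _, _, _ => false

/-- Well-formed trees with at most `m` levels. -/
inductive WF : ℕ → T → Prop
  | z (m : ℕ) : WF m z
  | lf (c : ℤ) : WF 0 (lf c)
  | nd (m : ℕ) (a b : T) : WF m a → WF m b → WF (m + 1) (nd a b)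

/-- Trees of parity `p`. -/
inductive Par : Bool → T → Prop
  | z (p : Bool) : Par p z
  | lf (c : ℤ) : Par false (lf c)
  | nd (p : Bool) (a b : T) : Par p a → Par (!p) b → Par p (nd a b)

variable {R : Type*} [Ring R] (e : ℕ → R)

/-- The ring element represented by a tree whose first level is `k`. -/
noncomputable def sem : ℕ → T → R
  | _, z => 0
  | _, lf c => (c : R)
  | k, nd a b => sem (k + 1) a + e k * sem (k + 1) b

lemma neg_ok {m : ℕ} {a : T} (h : WF m a) : ∀ k, WF m (neg a) ∧ sem e k (neg a) = -sem e k a := by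
  induction h with
  | z m => intro k; exact ⟨WF.z m, by show (0 : R) = -0; simp⟩
  | lf c => intro k; exact ⟨WF.lf _, by show ((-c : ℤ) : R) = -(c : R); simp⟩
  | nd m a b _ _ iha ihb =>
    intro k
    refine ⟨WF.nd m _ _ (iha k).1 (ihb k).1, ?_⟩
    show sem e (k + 1) (neg a) + e k * sem e (k + 1) (neg b) =
      -(sem e (k + 1) a + e k * sem e (k + 1) b)
    rw [(iha _).2, (ihb _).2]
    noncomm_ring

lemma add_ok {m : ℕ} {a b : T} (ha : WF m a) (hb : WF m b) :
    ∀ k, WF m (add a b) ∧ sem e k (add a b) = sem e k a + sem e k b := by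
  induction ha generalizing b with
  | z m => intro k; exact ⟨hb, by show sem e k b = 0 + _; simp⟩
  | lf c =>
    intro k
    cases hb with
    | z => exact ⟨WF.lf c, by show (c : R) = c + 0; simp⟩
    | lf d => exact ⟨WF.lf _, by show ((c + d : ℤ) : R) = c + d; simp⟩
  | nd m a₁ a₂ h₁ h₂ ih₁ ih₂ =>
    intro k
    cases hb with
    | z => exact ⟨WF.nd m _ _ h₁ h₂, by show _ = _ + (0 : R); simp; rfl⟩
    | nd _ b₁ b₂ g₁ g₂ =>
      refine ⟨WF.nd m _ _ (ih₁ g₁ k).1 (ih₂ g₂ k).1, ?_⟩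
      show sem e (k + 1) (add a₁ b₁) + e k * sem e (k + 1) (add a₂ b₂) =
        (sem e (k + 1) a₁ + e k * sem e (k + 1) a₂) + (sem e (k + 1) b₁ + e k * sem e (k + 1) b₂)
      rw [(ih₁ g₁ _).2, (ih₂ g₂ _).2]
      noncomm_ring

lemma sub_ok {m : ℕ} {a b : T} (ha : WF m a) (hb : WF m b) :
    ∀ k, WF m (sub a b) ∧ sem e k (sub a b) = sem e k a - sem e k b := by
  induction ha generalizing b with
  | z m =>
    intro k
    exact ⟨(neg_ok e hb k).1, by
      show sem e k (neg b) = 0 - _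
      rw [(neg_ok e hb k).2]; simp⟩
  | lf c =>
    intro k
    cases hb with
    | z => exact ⟨WF.lf c, by show (c : R) = c - 0; simp⟩
    | lf d => exact ⟨WF.lf _, by show ((c - d : ℤ) : R) = c - d; simp⟩
  | nd m a₁ a₂ h₁ h₂ ih₁ ih₂ =>
    intro k
    cases hb with
    | z => exact ⟨WF.nd m _ _ h₁ h₂, by show _ = _ - (0 : R); simp; rfl⟩
    | nd _ b₁ b₂ g₁ g₂ =>
      have hadd : WF (m + 1) (nd (add a₁ b₁) (add a₂ b₂)) → True := fun _ => trivial
      refine ⟨?_, ?_⟩
      · exact WF.nd m _ _ (ih₁ g₁ k).1 (ih₂ g₂ k).1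
      · show sem e (k + 1) (sub a₁ b₁) + e k * sem e (k + 1) (sub a₂ b₂) =
          (sem e (k + 1) a₁ + e k * sem e (k + 1) a₂) -
            (sem e (k + 1) b₁ + e k * sem e (k + 1) b₂)
        rw [(ih₁ g₁ _).2, (ih₂ g₂ _).2]
        noncomm_ring

lemma mkNd_ok {m : ℕ} {a b : T} (ha : WF m a) (hb : WF m b) (k : ℕ) :
    WF (m + 1) (mkNd a b) ∧ sem e k (mkNd a b) = sem e (k + 1) a + e k * sem e (k + 1) b := by
  cases ha <;> cases hb <;>
    first
    | exact ⟨WF.z _, by show (0 : R) = 0 + e k * 0; simp⟩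
    | (refine ⟨WF.nd _ _ _ ?_ ?_, rfl⟩ <;> (constructor <;> assumption))

/-- sign of a parity -/
def sgn (p : Bool) : ℤ := if p then -1 else 1

lemma sgn_not (p : Bool) : sgn (!p) = -sgn p := by cases p <;> rfl

lemma sgn_sq (p : Bool) : sgn p * sgn p = 1 := by cases p <;> rfl

variable (hanti : ∀ a b, e a * e b = -(e b * e a)) (hsq : ∀ a, e a * e a = 0)

include hanti in
lemma par_comm {p : Bool} {a : T} (h : Par p a) :
    ∀ k, ∀ j < k, e j * sem e k a = (sgn p : R) * (sem e k a * e j) := by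
  induction h with
  | z p => intro k j _; show e j * (0 : R) = _ * ((0 : R) * e j); simp
  | lf c =>
    intro k j _
    show e j * (c : R) = ((1 : ℤ) : R) * ((c : R) * e j)
    rw [Int.cast_one, one_mul]
    exact (Int.cast_commute c (e j)).symm
  | nd p a b _ _ iha ihb =>
    intro k j hj
    show e j * (sem e (k + 1) a + e k * sem e (k + 1) b) =
      (sgn p : R) * ((sem e (k + 1) a + e k * sem e (k + 1) b) * e j)
    have h1 := iha (k + 1) j (by omega)
    have h2 := ihb (k + 1) j (by omega)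
    rw [sgn_not, Int.cast_neg] at h2
    have h3 : e k * ((sgn p : R) * (sem e (k + 1) b * e j)) =
        (sgn p : R) * (e k * (sem e (k + 1) b * e j)) := by
      rw [← mul_assoc, ← (Int.cast_commute (sgn p) (e k)).eq, mul_assoc]
    rw [mul_add, h1, ← mul_assoc (e j) (e k), hanti j k, neg_mul, mul_assoc (e k) (e j), h2,
      neg_mul, mul_neg, h3, neg_neg, add_mul, mul_add, mul_assoc (e k)]

include hanti hsq in
lemma mul_ok {m : ℕ} {a b : T} (ha : WF m a) (hb : WF m b) :
    ∀ k p, Par p a → WF m (mul a p b) ∧ sem e k (mul a p b) = sem e k a * sem e k b := by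
  induction ha generalizing b with
  | z m => intro k p _; exact ⟨WF.z m, by show (0 : R) = 0 * _; simp⟩
  | lf c =>
    intro k p _
    cases hb with
    | z => exact ⟨WF.z _, by show (0 : R) = (c : R) * 0; simp⟩
    | lf d => exact ⟨WF.lf _, by show ((c * d : ℤ) : R) = c * d; simp⟩
  | nd m a₁ a₂ h₁ h₂ ih₁ ih₂ =>
    intro k p hp
    cases hp with
    | nd _ _ _ hp₁ hp₂ =>
    cases hb with
    | z => exact ⟨WF.z _, by show (0 : R) = _ * (0 : R); simp⟩
    | nd _ b₁ b₂ g₁ g₂ =>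
      obtain ⟨w11, s11⟩ := ih₁ g₁ (k + 1) p hp₁
      obtain ⟨w21, s21⟩ := ih₂ g₁ (k + 1) (!p) hp₂
      obtain ⟨w12, s12⟩ := ih₁ g₂ (k + 1) p hp₁
      have hc1 := par_comm e hanti hp₁ (k + 1) k (by omega)
      have hc2 := par_comm e hanti hp₂ (k + 1) k (by omega)
      set A₁ := sem e (k + 1) a₁ with hA₁
      set A₂ := sem e (k + 1) a₂ with hA₂
      set B₁ := sem e (k + 1) b₁ with hB₁
      set B₂ := sem e (k + 1) b₂ with hB₂
      have hz : e k * A₂ * (e k * B₂) = 0 := by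
        have h4 : e k * A₂ * e k = 0 := by
          rw [hc2, mul_assoc, mul_assoc, hsq, mul_zero, mul_zero]
        rw [← mul_assoc, h4, zero_mul]
      have hA1e : A₁ * e k = (sgn p : R) * (e k * A₁) := by
        rw [hc1, ← mul_assoc (sgn p : R), ← Int.cast_mul, sgn_sq, Int.cast_one, one_mul]
      have hrhs : (A₁ + e k * A₂) * (B₁ + e k * B₂) =
          A₁ * B₁ + e k * (A₂ * B₁ + (sgn p : R) * (A₁ * B₂)) := by
        rw [add_mul, mul_add, mul_add, hz, add_zero, ← mul_assoc A₁ (e k), hA1e, mul_add,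
          ← mul_assoc (e k) (sgn p : R), ← (Int.cast_commute (sgn p) (e k)).eq]
        noncomm_ring
      cases p with
      | false =>
        have hadd := add_ok e w21 w12 (k + 1)
        have := mkNd_ok e w11 hadd.1 k
        refine ⟨this.1, this.2.trans ?_⟩
        show _ = (A₁ + e k * A₂) * (B₁ + e k * B₂)
        rw [hrhs, hadd.2, s11, s21, s12]
        simp [sgn]
      | true =>
        have hadd := sub_ok e w21 w12 (k + 1)
        have := mkNd_ok e w11 hadd.1 k
        refine ⟨this.1, this.2.trans ?_⟩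
        show _ = (A₁ + e k * A₂) * (B₁ + e k * B₂)
        rw [hrhs, hadd.2, s11, s21, s12]
        simp [sgn, sub_eq_add_neg]

lemma sc_ok (c : ℤ) (m : ℕ) :
    ∀ k, WF m (sc c m) ∧ Par false (sc c m) ∧ sem e k (sc c m) = (c : R) := by
  induction m with
  | zero => intro k; exact ⟨WF.lf c, Par.lf c, rfl⟩
  | succ m ih =>
    intro k
    refine ⟨WF.nd m _ _ (ih k).1 (WF.z m), Par.nd _ _ _ (ih k).2.1 (Par.z _), ?_⟩
    show sem e (k + 1) (sc c m) + e k * 0 = _
    rw [(ih _).2.2]; simp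

/-- `∑_{k ≤ j < k + m} f j e_j` -/
noncomputable def S1 (f : ℕ → ℤ) : ℕ → ℕ → R
  | _, 0 => 0
  | k, m + 1 => S1 f (k + 1) m + e k * (f k : R)

/-- `∑_{k ≤ i < j < k + m} w i j e_i e_j` -/
noncomputable def S2 (w : ℕ → ℕ → ℤ) : ℕ → ℕ → R
  | _, 0 => 0
  | k, m + 1 => S2 w (k + 1) m + e k * S1 e (w k) (k + 1) m

lemma form1_ok (f : ℕ → ℤ) (m : ℕ) :
    ∀ k, WF m (form1 f k m) ∧ Par true (form1 f k m) ∧ sem e k (form1 f k m) = S1 e f k m := by
  induction m with
  | zero => intro k; exact ⟨WF.z _, Par.z _, by show (0 : R) = 0; rfl⟩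
  | succ m ih =>
    intro k
    obtain ⟨h1, h2, h3⟩ := ih (k + 1)
    obtain ⟨g1, g2, g3⟩ := sc_ok e (f k) m (k + 1)
    refine ⟨WF.nd m _ _ h1 g1, Par.nd _ _ _ h2 g2, ?_⟩
    show sem e (k + 1) (form1 f (k + 1) m) + e k * sem e (k + 1) (sc (f k) m) = _
    rw [h3, g3]; rfl

lemma form2_ok (w : ℕ → ℕ → ℤ) (m : ℕ) :
    ∀ k, WF m (form2 w k m) ∧ Par false (form2 w k m) ∧ sem e k (form2 w k m) = S2 e w k m := by
  induction m with
  | zero => intro k; exact ⟨WF.z _, Par.z _, by show (0 : R) = 0; rfl⟩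
  | succ m ih =>
    intro k
    obtain ⟨h1, h2, h3⟩ := ih (k + 1)
    obtain ⟨g1, g2, g3⟩ := form1_ok e (w k) m (k + 1)
    refine ⟨WF.nd m _ _ h1 g1, Par.nd _ _ _ h2 g2, ?_⟩
    show sem e (k + 1) (form2 w (k + 1) m) + e k * sem e (k + 1) (form1 (w k) (k + 1) m) = _
    rw [h3, g3]; rfl

/-- `e_k e_{k+1} ⋯ e_{k+m-1}` -/
noncomputable def cp : ℕ → ℕ → R
  | _, 0 => 1
  | k, m + 1 => e k * cp (k + 1) m

lemma isChain_ok (c : ℤ) (m : ℕ) : ∀ (k : ℕ) (t : T), isChain m t c = true →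
    sem e k t = cp e k m * (c : R) := by
  induction m with
  | zero =>
    intro k t h
    cases t with
    | lf d =>
      have : d = c := by simpa [isChain] using h
      subst this
      show (d : R) = 1 * d
      simp
    | z => simp [isChain] at h
    | nd a b => simp [isChain] at h
  | succ m ih =>
    intro k t h
    cases t with
    | lf d => simp [isChain] at h
    | z => simp [isChain] at h
    | nd a b =>
      cases a with
      | z =>
        have h' : isChain m b c = true := h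
        show 0 + e k * sem e (k + 1) b = (e k * cp e (k + 1) m) * c
        rw [ih _ _ h', zero_add, mul_assoc]
      | lf d => simp [isChain] at h
      | nd a b => simp [isChain] at h

end T

/-- sign of `b' - a'` where `'` is the residue of the `q`-multiple -/
def w (N q a b : ℕ) : ℤ := if (q * a) % N < (q * b) % N then 1 else -1

def om (N q : ℕ) : T := T.form2 (w N q) 1 (N - 1)

/-- The product of six two-forms on `e_1, …, e_12`. -/
noncomputable def W6 (q : Fin 6 → ℕ) : T :=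
  T.mul (om 13 (q 0)) false (T.mul (om 13 (q 1)) false (T.mul (om 13 (q 2)) false
    (T.mul (om 13 (q 3)) false (T.mul (om 13 (q 4)) false (om 13 (q 5))))))

lemma W6_ok {R : Type*} [Ring R] (e : ℕ → R) (hanti : ∀ a b, e a * e b = -(e b * e a))
    (hsq : ∀ a, e a * e a = 0) (q : Fin 6 → ℕ) :
    T.sem e 1 (W6 q) = T.S2 e (w 13 (q 0)) 1 12 * (T.S2 e (w 13 (q 1)) 1 12 *
      (T.S2 e (w 13 (q 2)) 1 12 * (T.S2 e (w 13 (q 3)) 1 12 * (T.S2 e (w 13 (q 4)) 1 12 *
      T.S2 e (w 13 (q 5)) 1 12)))) := by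
  have h := fun i : Fin 6 => T.form2_ok e (w 13 (q i)) 12 1
  have h4 := T.mul_ok e hanti hsq (h 4).1 (h 5).1 1 false (h 4).2.1
  have h3 := T.mul_ok e hanti hsq (h 3).1 h4.1 1 false (h 3).2.1
  have h2 := T.mul_ok e hanti hsq (h 2).1 h3.1 1 false (h 2).2.1
  have h1 := T.mul_ok e hanti hsq (h 1).1 h2.1 1 false (h 1).2.1
  have h0 := T.mul_ok e hanti hsq (h 0).1 h1.1 1 false (h 0).2.1
  rw [← (h 0).2.2, ← (h 1).2.2, ← (h 2).2.2, ← (h 3).2.2, ← (h 4).2.2, ← (h 5).2.2, ← h4.2,
    ← h3.2, ← h2.2, ← h1.2]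
  exact h0.2

end Q187.Orient
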