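import Pool.Agent.Q187.Orient.Perm
import Pool.Agent.Q187.Orient.Tree

/-!
# Evaluation of the alternated chain sum for seven-fold data on 13 points
-/

set_option autoImplicit false

namespace Q187.Orient

open scoped BigOperators
open Equiv

section forms

variable {R : Type*} [Ring R] (e : ℕ → R)

lemma S1_eq (f : ℕ → ℤ) (m : ℕ) : ∀ k, T.S1 e f k m = ∑ y ∈ Finset.Ico k (k + m), f y • e y := by
  induction m with
  | zero => intro k; simp [T.S1]
  | succ m ih =>
    intro k
    rw [T.S1, ih, Finset.sum_eq_sum_Ico_succ_bot (by omega : k < k + (m + 1)), add_comm,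
      show k + (m + 1) = k + 1 + m by omega]
    congr 1
    rw [zsmul_eq_mul, (Int.cast_commute (f k) (e k)).eq]

/-- off-diagonal part -/
def offd (w : ℕ → ℕ → ℤ) (x y : ℕ) : ℤ := if x = y then 0 else w x y

variable (hanti : ∀ a b, e a * e b = -(e b * e a))

include hanti in
lemma S2_eq (w : ℕ → ℕ → ℤ) (m : ℕ) :
    ∀ k, (∀ x y, k ≤ x → x < k + m → k ≤ y → y < k + m → x ≠ y → w x y = -w y x) →
      ∑ x ∈ Finset.Ico k (k + m), ∑ y ∈ Finset.Ico k (k + m), offd w x y • (e x * e y) =
        (2 : ℤ) • T.S2 e w k m := by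
  induction m with
  | zero => intro k _; simp [T.S2]
  | succ m ih =>
    intro k hw
    have hlt : k < k + (m + 1) := by omega
    rw [Finset.sum_eq_sum_Ico_succ_bot hlt, Finset.sum_eq_sum_Ico_succ_bot hlt]
    have h1 : ∀ x ∈ Finset.Ico (k + 1) (k + (m + 1)),
        ∑ y ∈ Finset.Ico k (k + (m + 1)), offd w x y • (e x * e y) =
          offd w k x • (e k * e x) +
            ∑ y ∈ Finset.Ico (k + 1) (k + (m + 1)), offd w x y • (e x * e y) := by
      intro x hx
      rw [Finset.mem_Ico] at hx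
      rw [Finset.sum_eq_sum_Ico_succ_bot hlt]
      congr 1
      have h2 : offd w x k = -offd w k x := by
        unfold offd
        rw [if_neg (by omega), if_neg (by omega)]
        exact hw x k (by omega) (by omega) le_rfl (by omega) (by omega)
      rw [h2, hanti x k, neg_smul, smul_neg, neg_neg]
    rw [Finset.sum_congr rfl h1, Finset.sum_add_distrib]
    have h3 := ih (k + 1) (fun x y h1 h2 h3 h4 => hw x y (by omega) (by omega) (by omega) (by omega))
    rw [show k + 1 + m = k + (m + 1) by omega] at h3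
    rw [h3]
    have h4 : T.S2 e w k (m + 1) = T.S2 e w (k + 1) m + e k * T.S1 e (w k) (k + 1) m := rfl
    have h5 : ∑ x ∈ Finset.Ico (k + 1) (k + (m + 1)), offd w k x • (e k * e x) =
        e k * T.S1 e (w k) (k + 1) m := by
      rw [S1_eq, Finset.mul_sum, show k + 1 + m = k + (m + 1) by omega]
      refine Finset.sum_congr rfl fun x hx => ?_
      rw [Finset.mem_Ico] at hx
      unfold offd
      rw [if_neg (by omega), mul_smul_comm]
    have h6 : offd w k k = 0 := by simp [offd]
    rw [h4, h5, h6, zero_smul, zero_add, smul_add, two_smul ℤ (e k * _)]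
    abel

variable (hsq : ∀ a, e a * e a = 0)

include hanti hsq in
lemma kill (m : ℕ) : ∀ k a, k ≤ a → a < k + m → e a * T.cp e k m = 0 := by
  induction m with
  | zero => intro k a h1 h2; omega
  | succ m ih =>
    intro k a h1 h2
    show e a * (e k * T.cp e (k + 1) m) = 0
    rcases Nat.eq_or_lt_of_le h1 with h | h
    · rw [← h, ← mul_assoc, hsq, zero_mul]
    · rw [← mul_assoc, hanti, neg_mul, mul_assoc, ih (k + 1) a (by omega) (by omega), mul_zero,
        neg_zero]

lemma cp_eq (m : ℕ) : ∀ k, T.cp e k m = (List.ofFn fun j : Fin m => e (k + j)).prod := by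
  induction m with
  | zero => intro k; simp [T.cp]
  | succ m ih =>
    intro k
    rw [List.ofFn_succ, List.prod_cons]
    show e k * T.cp e (k + 1) m = _
    rw [ih]
    simp only [Fin.val_zero, add_zero, Fin.val_succ]
    congr 3
    funext j
    congr 1
    ring

end forms

/-- The generators indexed by natural numbers. -/
noncomputable def gen (a : ℕ) : ExteriorAlgebra ℤ (Fin 13 → ℤ) :=
  if h : a < 13 then E (bas 13) ⟨a, h⟩ else 0

lemma one_gen (a : ℕ) : One (gen a) := by
  unfold gen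
  split_ifs with h
  · exact one_E _ _
  · exact ⟨0, by simp⟩

lemma gen_anti (a b : ℕ) : gen a * gen b = -(gen b * gen a) := (one_gen a).swap (one_gen b)

lemma gen_sq (a : ℕ) : gen a * gen a = 0 := (one_gen a).sq

lemma gen_fin (x : Fin 13) : gen x = E (bas 13) x := by
  unfold gen; rw [dif_pos x.2]

/-- The primitive with base point `0`. -/
def sb (q : ℕ) (x y : Fin 13) : ℤ :=
  if x = 0 ∨ y = 0 then 0 else offd (w 13 q) x y

lemma omega_sb (q : ℕ) (hq : ∀ x y : Fin 13, sb q x y = -sb q y x) :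
    omega (bas 13) (sb q) = (2 : ℤ) • T.S2 gen (w 13 q) 1 12 := by
  rw [← S2_eq gen gen_anti]
  · have h1 : omega (bas 13) (sb q) = ∑ x : Fin 13, ∑ y : Fin 13, sb q x y •
        (gen x * gen y) := by
      unfold omega alpha
      refine Finset.sum_congr rfl fun x _ => ?_
      rw [Finset.mul_sum]
      refine Finset.sum_congr rfl fun y _ => ?_
      rw [gen_fin, gen_fin, mul_smul_comm]
    let F : ℕ → ℕ → ExteriorAlgebra ℤ (Fin 13 → ℤ) := fun x y =>
      (if x = 0 ∨ y = 0 then 0 else offd (w 13 q) x y) • (gen x * gen y)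
    have h2 : ∀ x y : Fin 13, sb q x y • (gen x * gen y) = F x y := by
      intro x y
      have hx : x = 0 ↔ (x : ℕ) = 0 := by rw [Fin.ext_iff]; rfl
      have hy : y = 0 ↔ (y : ℕ) = 0 := by rw [Fin.ext_iff]; rfl
      simp only [sb, F, hx, hy]
    rw [h1]
    simp_rw [h2]
    have h3 : ∀ G : ℕ → ExteriorAlgebra ℤ (Fin 13 → ℤ), G 0 = 0 →
        ∑ x : Fin 13, G x = ∑ x ∈ Finset.Ico 1 (1 + 12), G x := by
      intro G hG
      rw [← Finset.sum_range (n := 13) G, Finset.range_eq_Ico,
        Finset.sum_eq_sum_Ico_succ_bot (by norm_num), hG, zero_add]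
    rw [h3 (fun x => ∑ y : Fin 13, F x y) (by simp [F])]
    refine Finset.sum_congr rfl fun x hx => ?_
    rw [h3 (fun y => F x y) (by simp [F])]
    refine Finset.sum_congr rfl fun y hy => ?_
    rw [Finset.mem_Ico] at hx hy
    simp only [F]
    rw [if_neg (by omega)]
  · intro x y hx hx' hy hy' hxy
    have := hq ⟨x, by omega⟩ ⟨y, by omega⟩
    have h0 : ∀ a : ℕ, ∀ h : a < 13, 1 ≤ a → (⟨a, h⟩ : Fin 13) ≠ 0 := by
      intro a h h1 h2
      rw [Fin.ext_iff] at h2
      have : a = 0 := h2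
      omega
    simp only [sb] at this
    rw [if_neg (by simp only [not_or]; exact ⟨h0 _ _ hx, h0 _ _ hy⟩),
      if_neg (by simp only [not_or]; exact ⟨h0 _ _ hy, h0 _ _ hx⟩)] at this
    simpa only [offd, if_neg hxy, if_neg (Ne.symm hxy)] using this

lemma phi_top : phi 13 (eta (bas 13) * T.cp gen 1 12) = 1 := by
  have h1 : eta (bas 13) * T.cp gen 1 12 = T.cp gen 0 13 := by
    have h2 : eta (bas 13) = ∑ x ∈ Finset.Ico 0 13, gen x := by
      unfold eta
      rw [← Finset.range_eq_Ico, Finset.sum_range]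
      refine Finset.sum_congr rfl fun x _ => ?_
      rw [gen_fin]
    rw [h2, Finset.sum_eq_sum_Ico_succ_bot (by norm_num), add_mul, Finset.sum_mul]
    rw [Finset.sum_eq_zero]
    · rw [add_zero]; rfl
    · intro x hx
      rw [Finset.mem_Ico] at hx
      exact kill gen gen_anti gen_sq 12 1 x (by omega) (by omega)
  rw [h1, cp_eq]
  have h3 : (List.ofFn fun j : Fin 13 => gen (0 + j)) =
      List.ofFn fun j : Fin 13 => E (bas 13) ((1 : Perm (Fin 13)) j) := by
    congr 1
    funext j
    rw [zero_add, gen_fin]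
    rfl
  rw [h3, phi_prod 13 (fun j => (1 : Perm (Fin 13)) j), det_perm]
  simp

lemma phi_aux (Y : ExteriorAlgebra ℤ (Fin 13 → ℤ)) (c : ℤ) :
    phi 13 (Y * (c : ExteriorAlgebra ℤ (Fin 13 → ℤ))) = c * phi 13 Y := by
  have : Y * (c : ExteriorAlgebra ℤ (Fin 13 → ℤ)) = c • Y := by
    rw [zsmul_eq_mul, (Int.cast_commute c _).eq]
  rw [this, map_zsmul, smul_eq_mul]

/-- Evaluation from the tree computation. -/
theorem eval (q : Fin 6 → ℕ) (c : ℤ) (hq : ∀ i, ∀ x y : Fin 13, sb (q i) x y = -sb (q i) y x)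
    (hc : T.isChain 12 (W6 q) c = true) :
    ∑ σ : Perm (Fin 13), (Perm.sign σ : ℤ) * coef 6 (fun i => sb (q i)) σ = 13 * 64 * c := by
  have h1 := chain_sum 6 (fun i => sb (q i)) hq
  have h2 : W (bas 13) (List.ofFn fun i => sb (q i)) = (64 : ℤ) • T.sem gen 1 (W6 q) := by
    rw [W6_ok gen gen_anti gen_sq]
    simp only [List.ofFn_succ, List.ofFn_zero, W, mul_one, omega_sb _ (hq _), smul_mul_assoc,
      mul_smul_comm, smul_smul]
    rfl
  have h3 := T.isChain_ok gen c 12 1 (W6 q) hc
  have h4 : phi 13 (eta (bas 13) * W (bas 13) (List.ofFn fun i => sb (q i))) = 64 * c := by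
    rw [h2, h3, mul_smul_comm, map_zsmul, ← mul_assoc, phi_aux, phi_top, smul_eq_mul, mul_one]
  have h5 : ∑ σ : Perm (Fin 13), (Perm.sign σ : ℤ) * coef 6 (fun i => sb (q i)) σ =
      (2 * (6 : ℕ) + 1 : ℤ) * phi 13 (eta (bas 13) * W (bas 13) (List.ofFn fun i => sb (q i))) := h1
  rw [h5, h4, ← mul_assoc]
  norm_num

end Q187.Orient
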