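import Pool.Agent.Q187.Orient.Chain

/-!
# From sums over permutations to the exterior algebra
-/

set_option autoImplicit false

namespace Q187.Orient

open scoped BigOperators
open Equiv

/-- the cocycle with primitive `s` -/
def cc {κ : Type*} (s : κ → κ → ℤ) (x y z : κ) : ℤ := s x y + s y z + s z x

section expand

variable {M : Type*} [AddCommGroup M] {κ : Type*} [Fintype κ] (v : κ → M)

lemma sum_cons {A : Type*} [AddCommMonoid A] (m : ℕ) (F : (Fin (m + 1) → κ) → A) :
    ∑ g, F g = ∑ y, ∑ g' : Fin m → κ, F (Fin.cons y g' : Fin (m + 1) → κ) := by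
  rw [← (Fin.consEquiv (fun _ => κ)).sum_comp, Fintype.sum_prod_type]
  rfl

/-- the chain coefficient of a sequence of `2n+1` points -/
def coef (n : ℕ) (s : Fin n → κ → κ → ℤ) (h : Fin (2 * n + 1) → κ) : ℤ :=
  ∏ i : Fin n, cc (s i) (h ⟨2 * i, by omega⟩) (h ⟨2 * i + 1, by omega⟩) (h ⟨2 * i + 2, by omega⟩)

lemma coef_succ (n : ℕ) (s : Fin (n + 1) → κ → κ → ℤ) (x y z : κ) (g : Fin (2 * n) → κ) :
    coef (n + 1) s (Fin.cons x (Fin.cons y (Fin.cons z g : Fin (2 * n + 1) → κ) :
      Fin (2 * n + 2) → κ) : Fin (2 * n + 3) → κ) =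
      cc (s 0) x y z * coef n (fun i => s i.succ) (Fin.cons z g : Fin (2 * n + 1) → κ) := by
  unfold coef
  rw [Fin.prod_univ_succ]
  rfl

lemma U_expand (n : ℕ) : ∀ (s : Fin n → κ → κ → ℤ) (x : κ),
    U v (List.ofFn s) x = ∑ g : Fin (2 * n) → κ, coef n s (Fin.cons x g : Fin (2 * n + 1) → κ) •
      (List.ofFn fun j => E v (g j)).prod := by
  induction n with
  | zero =>
    intro s x
    have : Unique (Fin (2 * 0) → κ) := (inferInstance : Unique (Fin 0 → κ))
    rw [Fintype.sum_unique]
    simp [U, coef]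
  | succ n ih =>
    intro s x
    rw [List.ofFn_succ]
    show ∑ y, ∑ z, (s 0 x y + s 0 y z + s 0 z x) • (E v y * (E v z *
      U v (List.ofFn fun i => s i.succ) z)) = _
    have h1 := sum_cons (κ := κ) (2 * n + 1) (fun g : Fin (2 * n + 2) → κ =>
      coef (n + 1) s (Fin.cons x g : Fin (2 * n + 3) → κ) • (List.ofFn fun j => E v (g j)).prod)
    refine Eq.trans ?_ h1.symm
    refine Finset.sum_congr rfl fun y _ => ?_
    have h2 := sum_cons (κ := κ) (2 * n) (fun g : Fin (2 * n + 1) → κ =>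
      coef (n + 1) s (Fin.cons x (Fin.cons y g : Fin (2 * n + 2) → κ) : Fin (2 * n + 3) → κ) •
        (List.ofFn fun j => E v ((Fin.cons y g : Fin (2 * n + 2) → κ) j)).prod)
    refine Eq.trans ?_ h2.symm
    refine Finset.sum_congr rfl fun z _ => ?_
    rw [ih, Finset.mul_sum, Finset.mul_sum, Finset.smul_sum]
    refine Finset.sum_congr rfl fun g _ => ?_
    rw [coef_succ, List.ofFn_succ, List.ofFn_succ, List.prod_cons, List.prod_cons, mul_smul]
    simp only [Fin.cons_zero, Fin.cons_succ]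
    rw [mul_smul_comm, mul_smul_comm]
    rfl

lemma total_expand (n : ℕ) (s : Fin n → κ → κ → ℤ) :
    ∑ x, E v x * U v (List.ofFn s) x = ∑ f : Fin (2 * n + 1) → κ, coef n s f •
      (List.ofFn fun j => E v (f j)).prod := by
  rw [sum_cons]
  refine Finset.sum_congr rfl fun x _ => ?_
  rw [U_expand, Finset.mul_sum]
  refine Finset.sum_congr rfl fun g _ => ?_
  rw [List.ofFn_succ, List.prod_cons]
  simp only [Fin.cons_zero, Fin.cons_succ]
  rw [mul_smul_comm]

end expand

section det

/-- the functional detecting the top element -/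
noncomputable def phi (N : ℕ) : ExteriorAlgebra ℤ (Fin N → ℤ) →ₗ[ℤ] ℤ :=
  ExteriorAlgebra.liftAlternating (R := ℤ) (M := Fin N → ℤ) (N := ℤ)
    (fun i => if h : i = N then h ▸ (Matrix.detRowAlternating (R := ℤ) (n := Fin N)) else 0)

lemma phi_ιMulti (N : ℕ) (a : Fin N → Fin N → ℤ) :
    phi N (ExteriorAlgebra.ιMulti ℤ N a) = Matrix.det (Matrix.of a) := by
  unfold phi
  rw [ExteriorAlgebra.liftAlternating_apply_ιMulti]
  simp
  rfl

/-- standard basis vectors -/
def bas (N : ℕ) (x : Fin N) : Fin N → ℤ := Pi.single x 1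

lemma phi_prod (N : ℕ) (f : Fin N → Fin N) :
    phi N (List.ofFn fun j => E (bas N) (f j)).prod =
      Matrix.det (Matrix.of fun j => bas N (f j)) := by
  rw [← phi_ιMulti]
  congr 1

lemma det_perm (N : ℕ) (σ : Perm (Fin N)) :
    Matrix.det (Matrix.of fun j => bas N (σ j)) = (Perm.sign σ : ℤ) := by
  have : (Matrix.of fun j => bas N (σ j)) = σ.toPEquiv.toMatrix := by
    ext i j
    simp [bas, PEquiv.toMatrix_apply, Pi.single_apply, eq_comm]
  rw [this, Matrix.det_permutation]
  rfl

lemma det_noninj (N : ℕ) (f : Fin N → Fin N) (hf : ¬ Function.Injective f) :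
    Matrix.det (Matrix.of fun j => bas N (f j)) = 0 := by
  rw [Function.not_injective_iff] at hf
  obtain ⟨i, j, h1, h2⟩ := hf
  apply Matrix.det_zero_of_row_eq h2
  show bas N (f i) = bas N (f j)
  rw [h1]

lemma sum_perm (N : ℕ) (C : (Fin N → Fin N) → ℤ) :
    ∑ f : Fin N → Fin N, C f * Matrix.det (Matrix.of fun j => bas N (f j)) =
      ∑ σ : Perm (Fin N), (Perm.sign σ : ℤ) * C σ := by
  classical
  have h1 : ∑ f : Fin N → Fin N, C f * Matrix.det (Matrix.of fun j => bas N (f j)) =
      ∑ f ∈ (Finset.univ.filter fun f : Fin N → Fin N => Function.Bijective f),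
        C f * Matrix.det (Matrix.of fun j => bas N (f j)) := by
    symm
    apply Finset.sum_subset (Finset.filter_subset _ _)
    intro f _ hf
    rw [det_noninj N f, mul_zero]
    intro hinj
    apply hf
    simp only [Finset.mem_filter, Finset.mem_univ, true_and]
    exact Finite.injective_iff_bijective.1 hinj
  rw [h1]
  symm
  refine Finset.sum_bij (fun (σ : Perm (Fin N)) _ => (σ : Fin N → Fin N)) ?_ ?_ ?_ ?_
  · intro σ _
    simp only [Finset.mem_filter, Finset.mem_univ, true_and]
    exact σ.bijective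
  · intro σ _ τ _ h
    exact DFunLike.coe_injective h
  · intro f hf
    simp only [Finset.mem_filter, Finset.mem_univ, true_and] at hf
    exact ⟨Equiv.ofBijective f hf, Finset.mem_univ _, rfl⟩
  · intro σ _
    rw [det_perm, mul_comm]

/-- **Reduction**: the alternated chain sum is `2n+1` times the top coefficient of `η ∏ ω_s`. -/
theorem chain_sum (n : ℕ) (s : Fin n → Fin (2 * n + 1) → Fin (2 * n + 1) → ℤ)
    (hs : ∀ i x y, s i x y = -s i y x) :
    ∑ σ : Perm (Fin (2 * n + 1)), (Perm.sign σ : ℤ) * coef n s σ =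
      (2 * n + 1 : ℤ) * phi (2 * n + 1) (eta (bas (2 * n + 1)) *
        W (bas (2 * n + 1)) (List.ofFn s)) := by
  rw [← sum_perm]
  obtain ⟨K, β, -, -, h⟩ := U_struct (bas (2 * n + 1)) (List.ofFn s) (by
    intro t ht
    rw [List.mem_ofFn] at ht
    obtain ⟨i, rfl⟩ := ht
    exact hs i)
  have h2 := congrArg (phi (2 * n + 1)) h
  rw [total_expand, map_sum, map_zsmul, List.length_ofFn] at h2
  rw [smul_eq_mul] at h2
  rw [← h2]
  refine Finset.sum_congr rfl fun f _ => ?_
  rw [map_zsmul, phi_prod, smul_eq_mul]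

end det

end Q187.Orient
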